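import Pool.Agent.Lib.MP_242fd5_gt.ZBMain

set_option autoImplicit false

namespace Pool.Agent.Results.MP_242fd5_gt.AllDimensions

open Pool.Agent.Lib.MP_242fd5_gt

/-- In every dimension `n ≥ 3` there are star bodies with property (P) arbitrarily far, in the
Banach-Mazur sense, from the Euclidean ball. -/
theorem result (n : ℕ) (hn : 3 ≤ n) (C : ℝ) :
    ∃ L : Set (EuclideanSpace ℝ (Fin n)),
      IsStarBody L ∧ HasPropertyP L ∧ (ballRatios L).Nonempty ∧ ∀ c ∈ ballRatios L, C ≤ c :=
  Z.main_all n hn C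

end Pool.Agent.Results.MP_242fd5_gt.AllDimensions
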