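import Pool.Agent.Lib.MP_242fd5_gt.Dn.Main

set_option autoImplicit false

namespace Pool.Agent.Results.MP_242fd5_gt.Dense

open MeasureTheory Pool.Agent.Lib.MP_242fd5_gt
open scoped symmDiff

/-- In dimension `n ≥ 3`, for every star body `K` there is a star body `L` with property (P), of
type `∞`, which is arbitrarily close to `I K` in the symmetric difference metric and such that
`I² L` is arbitrarily close to `I³ K` in the radial metric. -/
theorem result (n : ℕ) (hn : 3 ≤ n) (K : Set (EuclideanSpace ℝ (Fin n))) (hK : IsStarBody K)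
    (ε : ℝ) (hε : 0 < ε) :
    ∃ L : Set (EuclideanSpace ℝ (Fin n)), IsStarBody L ∧ HasPropertyP L ∧ HasType L ⊤ ∧
      volume (L ∆ interBody K) ≤ ENNReal.ofReal ε ∧
      ∀ u ∈ Metric.sphere (0 : EuclideanSpace ℝ (Fin n)) 1,
        |radial (interBody^[2] L) u - radial (interBody^[3] K) u| ≤ ε := by
  obtain ⟨q, rfl⟩ : ∃ q, n = q + 3 := ⟨n - 3, by omega⟩
  obtain ⟨L, h1, h2⟩ := Dn.dense hK hε
  exact ⟨L, (Ty.type_P h1).1.1, (Ty.type_P h1).1.2, h1, h2⟩

end Pool.Agent.Results.MP_242fd5_gt.Dense
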