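import Pool.Agent.Lib.MP_242fd5_gt.Cu.Main

set_option autoImplicit false

namespace Pool.Agent.Results.MP_242fd5_gt.FiniteTypes

open MeasureTheory Pool.Agent.Lib.MP_242fd5_gt
open scoped symmDiff Pointwise

/-- In dimension `n ≥ 3` the star bodies with property (P) are the centred ellipsoids, the bodies
`I^m (Ψ k E)` with `k ≥ 2` and `E` a `k`-tuple of almost disjoint centred ellipsoids of almost
equal volume, and the bodies of type `∞`. Here `Ψ k E` is the only body of type `k` that is close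
to the union of the `E i` and satisfies the moment conditions; it determines `E` up to order and
depends continuously on `E`. -/
theorem result (n : ℕ) (hn : 3 ≤ n) :
    ∃ ε₀ : ℕ → ℝ, (∀ k, 0 < ε₀ k) ∧ ∀ ε : ℕ → ℝ, (∀ k, 0 < ε k ∧ ε k ≤ ε₀ k) →
      ∃ (r : ℕ → ℝ) (Ψ : (k : ℕ) → (Fin k → Set (EuclideanSpace ℝ (Fin n))) →
          Set (EuclideanSpace ℝ (Fin n))),
        (∀ k : ℕ, 2 ≤ k → 0 < r k ∧
          (∀ E, Apart (r k) E → ∀ L,
            L = Ψ k E ↔ HasType L k ∧ Near (ε k) L E ∧ Centred L E) ∧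
          (∀ E F, Apart (r k) E → Apart (r k) F → Ψ k E = Ψ k F →
            ∃ σ : Equiv.Perm (Fin k), F = E ∘ σ) ∧
          (∀ τ : ℝ, 0 < τ → ∃ ω : ℝ, 0 < ω ∧ ∀ E F, Apart (r k) E → Apart (r k) F →
            (∀ i, E i ⊆ (1 + ω) • F i ∧ F i ⊆ (1 + ω) • E i) →
            (volume (Ψ k E ∆ Ψ k F)).toReal ≤ τ * (volume (Ψ k E)).toReal) ∧
          ∀ L, HasType L k ↔ ∃ (m : ℕ) (E : Fin k → Set (EuclideanSpace ℝ (Fin n))),
            Apart (r k) E ∧ L = interBody^[m] (Ψ k E)) ∧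
        ∀ L : Set (EuclideanSpace ℝ (Fin n)), IsStarBody L ∧ HasPropertyP L ↔
          IsEllipsoid L ∨
            (∃ k : ℕ, 2 ≤ k ∧ ∃ (m : ℕ) (E : Fin k → Set (EuclideanSpace ℝ (Fin n))),
              Apart (r k) E ∧ L = interBody^[m] (Ψ k E)) ∨
            HasType L ⊤ := by
  obtain ⟨q, rfl⟩ : ∃ q, n = q + 3 := ⟨n - 3, by omega⟩
  choose e e0 he using fun k : ℕ => Cu.centres q (k + 2) (by omega)
  refine ⟨fun k => e (k - 2), fun k => e0 _, fun ε hε => ?_⟩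
  choose r r0 Ψ h using fun k : ℕ => he k (ε (k + 2)) (hε _).1 (hε (k + 2)).2
  refine ⟨fun k => r (k - 2), fun k => match k with
    | 0 => fun _ => ∅
    | 1 => fun _ => ∅
    | k + 2 => Ψ k, fun k hk => ?_, fun L => ⟨fun hL => ?_, ?_⟩⟩
  · obtain ⟨k, rfl⟩ : ∃ j, k = j + 2 := ⟨k - 2, by omega⟩
    exact ⟨r0 k, h k⟩
  · obtain ⟨k, hk⟩ := Ty.type_exists hL.2
    have k1 := (Ty.type_P hk).2
    induction k using ENat.recTopCoe with
    | top => exact Or.inr (Or.inr hk)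
    | coe k =>
      rcases (show 1 ≤ k by exact_mod_cast k1).eq_or_lt with rfl | h1
      · exact Or.inl (Ty.type_one_iff.1 hk)
      · obtain ⟨k, rfl⟩ : ∃ j, k = j + 2 := ⟨k - 2, by omega⟩
        exact Or.inr (Or.inl ⟨k + 2, by omega, ((h k).2.2.2 L).1 hk⟩)
  · rintro (hL | ⟨k, hk, hL⟩ | hL)
    · exact (Ty.type_P (Ty.type_one_iff.2 hL)).1
    · obtain ⟨k, rfl⟩ : ∃ j, k = j + 2 := ⟨k - 2, by omega⟩
      exact (Ty.type_P (((h k).2.2.2 L).2 hL)).1
    · exact (Ty.type_P hL).1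

end Pool.Agent.Results.MP_242fd5_gt.FiniteTypes
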