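import Pool.Agent.Lib.MP_242fd5_gt.Ty.G2Main

set_option autoImplicit false

namespace Pool.Agent.Results.MP_242fd5_gt.Types

open Pool.Agent.Lib.MP_242fd5_gt

/-- In dimension `n ≥ 3` every star body with property (P) has exactly one type in
`{1, 2, …, ∞}`, every type occurs, and type `1` consists of the centred ellipsoids. -/
theorem result (n : ℕ) (hn : 3 ≤ n) :
    ∃ τ : {L : Set (EuclideanSpace ℝ (Fin n)) // IsStarBody L ∧ HasPropertyP L} → ℕ∞,
      (∀ L k, HasType L.1 k ↔ τ L = k) ∧ Set.range τ = {k | 1 ≤ k} ∧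
        ∀ L, τ L = 1 ↔ IsEllipsoid L.1 := by
  obtain ⟨q, rfl⟩ : ∃ q, n = q + 3 := ⟨n - 3, by omega⟩
  exact Ty.types q

end Pool.Agent.Results.MP_242fd5_gt.Types
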